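import Mathlib

/-!
# Moments of cosine polynomials over integers and over primes

`cp S a t = ∑_(n in S) a n cos (t log n)`. Second moments for integers `≥ 2`, mixed fourth moments for primes (unique factorisation), with crude error
terms (powers of the length).
-/

open Set MeasureTheory Finset

namespace Pool.Agent.Lib.MP_00e05b_nt.Gap2

/-- A real cosine polynomial with frequencies `log n`. -/
noncomputable def cp (S : Finset ℕ) (a : ℕ → ℝ) (t : ℝ) : ℝ := ∑ n ∈ S, a n * Real.cos (t * Real.log n)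

theorem cp_cont (S : Finset ℕ) (a : ℕ → ℝ) : Continuous (cp S a) := by
  unfold cp
  fun_prop

theorem cp_bound (S : Finset ℕ) (a : ℕ → ℝ) (t : ℝ) : |cp S a t| ≤ ∑ n ∈ S, |a n| := by
  unfold cp
  refine (abs_sum_le_sum_abs _ _).trans (sum_le_sum fun n _ => ?_)
  rw [abs_mul]
  calc |a n| * |Real.cos (t * Real.log n)| ≤ |a n| * 1 := mul_le_mul_of_nonneg_left (Real.abs_cos_le_one _) (abs_nonneg _)
    _ = |a n| := mul_one _

/-- `∫_0^T cos (t d)`. -/
noncomputable def Mom_I (T d : ℝ) : ℝ := ∫ t in (0 : ℝ)..T, Real.cos (t * d)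

theorem Mom_I_zero (T : ℝ) : Mom_I T 0 = T := by
  unfold Mom_I
  simp

theorem Mom_I_le (T : ℝ) {d : ℝ} (hd : d ≠ 0) : |Mom_I T d| ≤ |d|⁻¹ := by
  unfold Mom_I
  have h : ∫ t in (0 : ℝ)..T, Real.cos (t * d) = Real.sin (T * d) / d := by
    have h1 : ∀ t ∈ uIcc (0 : ℝ) T, HasDerivAt (fun t => Real.sin (t * d) / d) (Real.cos (t * d)) t := by
      intro t _
      have h2 : HasDerivAt (fun t : ℝ => t * d) d t := by simpa using (hasDerivAt_id t).mul_const d
      have h3 := (h2.sin).div_const d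
      have h4 : Real.cos (t * d) * d / d = Real.cos (t * d) := mul_div_cancel_right₀ _ hd
      rw [h4] at h3
      exact h3
    rw [intervalIntegral.integral_eq_sub_of_hasDerivAt h1 (Continuous.intervalIntegrable (by fun_prop) _ _)]
    simp
  rw [h, abs_div, div_eq_mul_inv]
  calc |Real.sin (T * d)| * |d|⁻¹ ≤ 1 * |d|⁻¹ := mul_le_mul_of_nonneg_right (Real.abs_sin_le_one _) (by positivity)
    _ = |d|⁻¹ := one_mul _

theorem Mom_log {N M : ℕ} (hM : 1 ≤ M) (h : M < N) : 1 / (N : ℝ) ≤ Real.log N - Real.log M := by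
  have hM0 : (0 : ℝ) < M := by exact_mod_cast hM
  have hN0 : (0 : ℝ) < N := by exact_mod_cast (lt_of_le_of_lt (Nat.zero_le _) h)
  have h1 : Real.log (M / N) ≤ M / N - 1 := Real.log_le_sub_one_of_pos (by positivity)
  rw [Real.log_div hM0.ne' hN0.ne'] at h1
  have h2 : (M : ℝ) + 1 ≤ N := by exact_mod_cast h
  have h3 : (M : ℝ) / N - 1 ≤ -(1 / N) := by
    rw [div_sub_one hN0.ne', neg_div', div_le_div_iff_of_pos_right hN0]
    linarith
  linarith

theorem Mom_int {N M Y : ℕ} (T : ℝ) (hN : 1 ≤ N) (hM : 1 ≤ M) (hNY : N ≤ Y) (hMY : M ≤ Y) :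
    |Mom_I T (Real.log N - Real.log M) - (if N = M then T else 0)| ≤ Y := by
  rcases eq_or_ne N M with h | h
  · rw [if_pos h, h, sub_self, Mom_I_zero, sub_self, abs_zero]
    exact Nat.cast_nonneg _
  · rw [if_neg h, sub_zero]
    have hY0 : (0 : ℝ) < Y := by exact_mod_cast (lt_of_lt_of_le hN hNY)
    have h1 : 1 / (Y : ℝ) ≤ |Real.log N - Real.log M| := by
      rcases lt_or_gt_of_ne h with h2 | h2
      · rw [abs_sub_comm]
        have h3 := Mom_log hN h2
        have h4 : 1 / (Y : ℝ) ≤ 1 / M := one_div_le_one_div_of_le (by exact_mod_cast hM) (by exact_mod_cast hMY)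
        exact (h4.trans h3).trans (le_abs_self _)
      · have h3 := Mom_log hM h2
        have h4 : 1 / (Y : ℝ) ≤ 1 / N := one_div_le_one_div_of_le (by exact_mod_cast hN) (by exact_mod_cast hNY)
        exact (h4.trans h3).trans (le_abs_self _)
    have h5 : Real.log N - Real.log M ≠ 0 := by
      intro h6
      rw [h6, abs_zero] at h1
      have : 0 < 1 / (Y : ℝ) := by positivity
      linarith
    refine (Mom_I_le T h5).trans ?_
    rw [inv_le_comm₀ (abs_pos.2 h5) hY0, ← one_div]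
    exact h1

/-- Second moments: integers `≥ 2`. -/
theorem Mom_two {S : Finset ℕ} {X : ℕ} (hS : ∀ n ∈ S, 2 ≤ n ∧ n ≤ X) {a b : ℕ → ℝ} {H : ℝ} (ha : ∀ n ∈ S, |a n| ≤ H)
    (hb : ∀ n ∈ S, |b n| ≤ H) (T : ℝ) :
    |(∫ t in (0 : ℝ)..T, cp S a t * cp S b t) - T / 2 * ∑ n ∈ S, a n * b n| ≤ H ^ 2 * X ^ 4 := by
  classical
  have hexp : ∀ t, cp S a t * cp S b t = ∑ n ∈ S, ∑ m ∈ S, (a n * b m / 2) *
      (Real.cos (t * (Real.log n - Real.log m)) + Real.cos (t * (Real.log (n * m : ℕ) - Real.log (1 : ℕ)))) := by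
    intro t
    unfold cp
    rw [sum_mul_sum]
    refine sum_congr rfl fun n hn => sum_congr rfl fun m hm => ?_
    have hn0 : (n : ℝ) ≠ 0 := by
      have := (hS n hn).1
      positivity
    have hm0 : (m : ℝ) ≠ 0 := by
      have := (hS m hm).1
      positivity
    have h1 : Real.log ((n * m : ℕ) : ℝ) - Real.log ((1 : ℕ) : ℝ) = Real.log n + Real.log m := by
      push_cast
      rw [Real.log_mul hn0 hm0, Real.log_one, sub_zero]
    rw [h1, mul_sub, mul_add t, Real.cos_sub, Real.cos_add]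
    ring
  have hint : ∫ t in (0 : ℝ)..T, cp S a t * cp S b t = ∑ n ∈ S, ∑ m ∈ S, (a n * b m / 2) *
      (Mom_I T (Real.log n - Real.log m) + Mom_I T (Real.log (n * m : ℕ) - Real.log (1 : ℕ))) := by
    simp_rw [hexp]
    rw [intervalIntegral.integral_finsetSum fun n _ => Continuous.intervalIntegrable (by fun_prop) _ _]
    refine sum_congr rfl fun n _ => ?_
    rw [intervalIntegral.integral_finsetSum fun m _ => Continuous.intervalIntegrable (by fun_prop) _ _]
    refine sum_congr rfl fun m _ => ?_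
    rw [intervalIntegral.integral_const_mul, intervalIntegral.integral_add
      (Continuous.intervalIntegrable (by fun_prop) _ _) (Continuous.intervalIntegrable (by fun_prop) _ _)]
    rfl
  have hdiag : T / 2 * ∑ n ∈ S, a n * b n = ∑ n ∈ S, ∑ m ∈ S, (a n * b m / 2) * (if n = m then T else 0) := by
    rw [mul_sum]
    refine sum_congr rfl fun n hn => ?_
    rw [sum_eq_single n]
    · rw [if_pos rfl]; ring
    · intro m _ hm; rw [if_neg hm.symm, mul_zero]
    · intro h; exact absurd hn h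
  rw [hint, hdiag, ← sum_sub_distrib]
  simp_rw [← sum_sub_distrib, ← mul_sub]
  have hX2 : ∀ n ∈ S, ∀ m ∈ S, |(a n * b m / 2) * (Mom_I T (Real.log n - Real.log m) +
      Mom_I T (Real.log (n * m : ℕ) - Real.log (1 : ℕ)) - (if n = m then T else 0))| ≤ H ^ 2 * X ^ 2 := by
    intro n hn m hm
    have hn2 := hS n hn
    have hm2 := hS m hm
    have hX0 : (0 : ℝ) ≤ X := Nat.cast_nonneg _
    have hX1 : (1 : ℝ) ≤ X := by exact_mod_cast (by omega : 1 ≤ X)
    have e1 := Mom_int T (N := n) (M := m) (Y := X) (by omega) (by omega) hn2.2 hm2.2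
    have hnm : n * m ≤ X ^ 2 := by rw [sq]; exact Nat.mul_le_mul hn2.2 hm2.2
    have hnm4 : 4 ≤ n * m := by nlinarith
    have e2 := Mom_int T (N := n * m) (M := 1) (Y := X ^ 2) (by omega) le_rfl hnm (by omega)
    rw [if_neg (by omega), sub_zero] at e2
    push_cast at e2 ⊢
    have hab : |a n * b m / 2| ≤ H ^ 2 / 2 := by
      rw [abs_div, abs_mul, abs_two]
      have := mul_le_mul (ha n hn) (hb m hm) (abs_nonneg _) ((abs_nonneg _).trans (ha n hn))
      rw [sq]; linarith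
    have hsum : |Mom_I T (Real.log n - Real.log m) + Mom_I T (Real.log (n * m) - Real.log 1) -
        (if n = m then T else 0)| ≤ 2 * X ^ 2 := by
      have e3 : Mom_I T (Real.log n - Real.log m) + Mom_I T (Real.log (n * m) - Real.log 1) - (if n = m then T else 0) =
        (Mom_I T (Real.log n - Real.log m) - (if n = m then T else 0)) + Mom_I T (Real.log (n * m) - Real.log 1) := by ring
      rw [e3]
      refine (abs_add_le _ _).trans ?_
      have : (X : ℝ) ≤ X ^ 2 := by nlinarith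
      linarith
    rw [abs_mul]
    calc |a n * b m / 2| * _ ≤ (H ^ 2 / 2) * (2 * X ^ 2) := mul_le_mul hab hsum (abs_nonneg _) (by positivity)
      _ = H ^ 2 * X ^ 2 := by ring
  have hcard : (S.card : ℝ) ≤ X := by
    have h1 : S ⊆ Finset.Icc 1 X := fun n hn => by
      rw [Finset.mem_Icc]
      have := hS n hn
      omega
    have h2 := Finset.card_le_card h1
    rw [Nat.card_Icc] at h2
    exact_mod_cast (by omega : S.card ≤ X)
  calc |∑ n ∈ S, ∑ m ∈ S, _| ≤ ∑ n ∈ S, ∑ m ∈ S, H ^ 2 * (X : ℝ) ^ 2 := by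
        refine (abs_sum_le_sum_abs _ _).trans (sum_le_sum fun n hn => ?_)
        exact (abs_sum_le_sum_abs _ _).trans (sum_le_sum fun m hm => hX2 n hn m hm)
    _ = (S.card : ℝ) * S.card * (H ^ 2 * (X : ℝ) ^ 2) := by
        rw [sum_const, sum_const, nsmul_eq_mul, nsmul_eq_mul]; ring
    _ ≤ X * X * (H ^ 2 * (X : ℝ) ^ 2) := by
        have := mul_le_mul hcard hcard (Nat.cast_nonneg _) (Nat.cast_nonneg _)
        exact mul_le_mul_of_nonneg_right this (by positivity)
    _ = H ^ 2 * X ^ 4 := by ring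

/-- the product of four cosines -/
theorem Mom_cos4 (x y z w : ℝ) : Real.cos x * Real.cos y * (Real.cos z * Real.cos w) =
    (Real.cos (x + y + z + w) + Real.cos (x + y + z - w) + Real.cos (x + y - z + w) + Real.cos (x - y + z + w) +
      Real.cos (x + y - z - w) + Real.cos (x - y + z - w) + Real.cos (x - y - z + w) + Real.cos (x - y - z - w)) / 8 := by
  have e1 : Real.cos (x + y + z + w) + Real.cos (x + y + z - w) = 2 * Real.cos (x + y + z) * Real.cos w := by
    rw [Real.cos_add (x + y + z), Real.cos_sub (x + y + z)]; ring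
  have e2 : Real.cos (x + y - z + w) + Real.cos (x + y - z - w) = 2 * Real.cos (x + y - z) * Real.cos w := by
    rw [Real.cos_add (x + y - z), Real.cos_sub (x + y - z)]; ring
  have e3 : Real.cos (x - y + z + w) + Real.cos (x - y + z - w) = 2 * Real.cos (x - y + z) * Real.cos w := by
    rw [Real.cos_add (x - y + z), Real.cos_sub (x - y + z)]; ring
  have e4 : Real.cos (x - y - z + w) + Real.cos (x - y - z - w) = 2 * Real.cos (x - y - z) * Real.cos w := by
    rw [Real.cos_add (x - y - z), Real.cos_sub (x - y - z)]; ring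
  have e5 : Real.cos (x + y + z) + Real.cos (x + y - z) = 2 * Real.cos (x + y) * Real.cos z := by
    rw [Real.cos_add (x + y), Real.cos_sub (x + y)]; ring
  have e6 : Real.cos (x - y + z) + Real.cos (x - y - z) = 2 * Real.cos (x - y) * Real.cos z := by
    rw [Real.cos_add (x - y), Real.cos_sub (x - y)]; ring
  have e7 : Real.cos (x + y) + Real.cos (x - y) = 2 * Real.cos x * Real.cos y := by
    rw [Real.cos_add, Real.cos_sub]; ring
  linear_combination (-1 / 8 : ℝ) * e1 - (1 / 8 : ℝ) * e2 - (1 / 8 : ℝ) * e3 - (1 / 8 : ℝ) * e4 -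
    (1 / 4 : ℝ) * Real.cos w * e5 - (1 / 4 : ℝ) * Real.cos w * e6 - (1 / 2 : ℝ) * Real.cos z * Real.cos w * e7

private theorem Mom_prime3 {p q r s : ℕ} (hp : p.Prime) (hq : q.Prime) (hr : r.Prime) (hs : s.Prime) : p * q * r ≠ s := by
  have _h0 := hq.pos
  intro h
  have h1 : p ∣ s := ⟨q * r, by rw [← h]; ring⟩
  have h2 : p = s := (Nat.prime_dvd_prime_iff_eq hp hs).1 h1
  have h3 := hq.two_le
  have h4 := hr.two_le
  have h5 := hp.pos
  rw [h2] at h
  have h6 : 4 ≤ q * r := by nlinarith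
  have h7 : s * (q * r) = s := by rw [← mul_assoc]; exact h
  have h8 := hs.pos
  nlinarith

theorem Mom_prime2 {p q r s : ℕ} (hp : p.Prime) (hq : q.Prime) (hr : r.Prime) (hs : s.Prime) :
    p * q = r * s ↔ (p = r ∧ q = s) ∨ (p = s ∧ q = r) := by
  constructor
  · intro h
    have h1 : p ∣ r * s := ⟨q, h.symm⟩
    rcases (Nat.Prime.dvd_mul hp).1 h1 with h2 | h2
    · have h3 := (Nat.prime_dvd_prime_iff_eq hp hr).1 h2
      subst h3
      exact Or.inl ⟨rfl, Nat.eq_of_mul_eq_mul_left hp.pos h⟩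
    · have h3 := (Nat.prime_dvd_prime_iff_eq hp hs).1 h2
      subst h3
      rw [mul_comm r] at h
      exact Or.inr ⟨rfl, Nat.eq_of_mul_eq_mul_left hp.pos h⟩
  · rintro (⟨rfl, rfl⟩ | ⟨rfl, rfl⟩)
    · rfl
    · exact mul_comm _ _

/-- indicator as a real number -/
noncomputable def Mom_d (n m : ℕ) : ℝ := if n = m then 1 else 0

private theorem Mom_dd (a b c d : ℕ) : Mom_d a b * Mom_d c d = if (a = b ∧ c = d) then 1 else 0 := by
  unfold Mom_d
  by_cases h1 : a = b <;> by_cases h2 : c = d <;> simp [h1, h2]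

private theorem Mom_ind {p q r s : ℕ} (hp : p.Prime) (hq : q.Prime) (hr : r.Prime) (hs : s.Prime) :
    Mom_d (p * q) (r * s) = Mom_d p r * Mom_d q s + Mom_d p s * Mom_d q r - Mom_d p r * Mom_d q s * Mom_d p s := by
  have h := Mom_prime2 hp hq hr hs
  rw [Mom_dd, Mom_dd]
  by_cases A : p = r ∧ q = s
  · by_cases B : p = s ∧ q = r
    · have h1 : p * q = r * s := h.2 (Or.inl A)
      obtain ⟨rfl, rfl⟩ := A
      obtain ⟨rfl, -⟩ := B
      simp [Mom_d]
    · have h1 : p * q = r * s := h.2 (Or.inl A)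
      have h2 : p ≠ s := by
        rintro rfl
        exact B ⟨rfl, by rw [A.2, A.1]⟩
      rw [if_pos A, if_neg B]
      unfold Mom_d
      rw [if_pos h1, if_neg h2]
      ring
  · by_cases B : p = s ∧ q = r
    · have h1 : p * q = r * s := h.2 (Or.inr B)
      rw [if_neg A, if_pos B]
      unfold Mom_d
      rw [if_pos h1]
      ring
    · have h1 : ¬ (p * q = r * s) := fun h0 => (h.1 h0).elim A B
      rw [if_neg A, if_neg B]
      unfold Mom_d
      rw [if_neg h1]
      ring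

private theorem Mom_F {X p q r s : ℕ} (T : ℝ) (hp : p.Prime) (hq : q.Prime) (hr : r.Prime) (hs : s.Prime)
    (hpX : p ≤ X) (hqX : q ≤ X) (hrX : r ≤ X) (hsX : s ≤ X) :
    |(∫ t in (0 : ℝ)..T, Real.cos (t * Real.log p) * Real.cos (t * Real.log q) *
        (Real.cos (t * Real.log r) * Real.cos (t * Real.log s))) -
      T / 8 * (Mom_d (p * q) (r * s) + Mom_d (p * r) (q * s) + Mom_d (p * s) (q * r))| ≤ X ^ 4 := by
  have p0 := hp.pos
  have q0 := hq.pos
  have r0 := hr.pos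
  have s0 := hs.pos
  have lp : (p : ℝ) ≠ 0 := by positivity
  have lq : (q : ℝ) ≠ 0 := by positivity
  have lr : (r : ℝ) ≠ 0 := by positivity
  have ls : (s : ℝ) ≠ 0 := by positivity
  have hX1 : 1 ≤ X := le_trans p0 hpX
  obtain ⟨x, hx⟩ : ∃ x, x = Real.log p := ⟨_, rfl⟩
  obtain ⟨y, hy⟩ : ∃ x, x = Real.log q := ⟨_, rfl⟩
  obtain ⟨z, hz⟩ : ∃ x, x = Real.log r := ⟨_, rfl⟩
  obtain ⟨w, hw⟩ : ∃ x, x = Real.log s := ⟨_, rfl⟩
  have hint : ∫ t in (0 : ℝ)..T, Real.cos (t * Real.log p) * Real.cos (t * Real.log q) *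
        (Real.cos (t * Real.log r) * Real.cos (t * Real.log s)) =
      (Mom_I T (x + y + z + w) + Mom_I T (x + y + z - w) + Mom_I T (x + y - z + w) + Mom_I T (x - y + z + w) +
      Mom_I T (x + y - z - w) + Mom_I T (x - y + z - w) + Mom_I T (x - y - z + w) + Mom_I T (x - y - z - w)) / 8 := by
    rw [← hx, ← hy, ← hz, ← hw]
    have h1 : (fun t : ℝ => Real.cos (t * x) * Real.cos (t * y) * (Real.cos (t * z) * Real.cos (t * w))) = fun t : ℝ =>
        (Real.cos (t * (x + y + z + w)) + Real.cos (t * (x + y + z - w)) + Real.cos (t * (x + y - z + w)) +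
          Real.cos (t * (x - y + z + w)) + Real.cos (t * (x + y - z - w)) + Real.cos (t * (x - y + z - w)) +
          Real.cos (t * (x - y - z + w)) + Real.cos (t * (x - y - z - w))) / 8 := by
      funext t
      rw [Mom_cos4]
      simp only [mul_add, mul_sub]
    rw [h1, intervalIntegral.integral_div]
    unfold Mom_I
    repeat rw [intervalIntegral.integral_add (Continuous.intervalIntegrable (by fun_prop) _ _)
      (Continuous.intervalIntegrable (by fun_prop) _ _)]
  have key : ∀ {N M : ℕ} {δ : ℝ}, 1 ≤ N → 1 ≤ M → N ≤ X ^ 4 → M ≤ X ^ 4 → δ = Real.log N - Real.log M →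
      |Mom_I T δ - T * Mom_d N M| ≤ (X : ℝ) ^ 4 := by
    intro N M δ h1 h2 h3 h4 h5
    have h6 := Mom_int T h1 h2 h3 h4
    have h7 : T * Mom_d N M = if N = M then T else 0 := by
      unfold Mom_d
      split_ifs <;> ring
    rw [h5, h7]
    exact_mod_cast h6
  have hX4 : ∀ {a b c d : ℕ}, a ≤ X → b ≤ X → c ≤ X → d ≤ X → a * b * c * d ≤ X ^ 4 := by
    intro a b c d h1 h2 h3 h4
    calc a * b * c * d ≤ X * X * X * X := Nat.mul_le_mul (Nat.mul_le_mul (Nat.mul_le_mul h1 h2) h3) h4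
      _ = X ^ 4 := by ring
  have L : ∀ {a b : ℕ}, (a : ℝ) ≠ 0 → (b : ℝ) ≠ 0 → Real.log ((a * b : ℕ) : ℝ) = Real.log a + Real.log b := by
    intro a b h1 h2
    push_cast
    exact Real.log_mul h1 h2
  have L3 : ∀ {a b c : ℕ}, (a : ℝ) ≠ 0 → (b : ℝ) ≠ 0 → (c : ℝ) ≠ 0 →
      Real.log ((a * b * c : ℕ) : ℝ) = Real.log a + Real.log b + Real.log c := by
    intro a b c h1 h2 h3
    rw [L (by push_cast; positivity) h3, L h1 h2]
  have one4 : 1 ≤ X ^ 4 := Nat.one_le_pow _ _ hX1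
  have b2 : ∀ {a b : ℕ}, a ≤ X → b ≤ X → a * b ≤ X ^ 4 := by
    intro a b h1 h2
    have := hX4 h1 h2 hX1 hX1
    simpa using this
  have b3 : ∀ {a b c : ℕ}, a ≤ X → b ≤ X → c ≤ X → a * b * c ≤ X ^ 4 := by
    intro a b c h1 h2 h3
    have := hX4 h1 h2 h3 hX1
    simpa using this
  have b1 : ∀ {a : ℕ}, a ≤ X → a ≤ X ^ 4 := by
    intro a h1
    have := hX4 h1 hX1 hX1 hX1
    simpa using this
  have pos2 : ∀ {a b : ℕ}, 0 < a → 0 < b → 1 ≤ a * b := fun h1 h2 => Nat.mul_pos h1 h2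
  have pos3 : ∀ {a b c : ℕ}, 0 < a → 0 < b → 0 < c → 1 ≤ a * b * c := fun h1 h2 h3 => Nat.mul_pos (Nat.mul_pos h1 h2) h3
  have k1 := key (N := p * q * r * s) (M := 1) (δ := x + y + z + w) (Nat.mul_pos (pos3 p0 q0 r0) s0) le_rfl
    (hX4 hpX hqX hrX hsX) one4 (by
      rw [L (by push_cast; positivity) ls, L3 lp lq lr, ← hx, ← hy, ← hz, ← hw]; simp)
  have k2 := key (N := p * q * r) (M := s) (δ := x + y + z - w) (pos3 p0 q0 r0) s0 (b3 hpX hqX hrX) (b1 hsX) (by
      rw [L3 lp lq lr, ← hx, ← hy, ← hz, ← hw])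
  have k3 := key (N := p * q * s) (M := r) (δ := x + y - z + w) (pos3 p0 q0 s0) r0 (b3 hpX hqX hsX) (b1 hrX) (by
      rw [L3 lp lq ls, ← hx, ← hy, ← hz, ← hw]; ring)
  have k4 := key (N := p * r * s) (M := q) (δ := x - y + z + w) (pos3 p0 r0 s0) q0 (b3 hpX hrX hsX) (b1 hqX) (by
      rw [L3 lp lr ls, ← hx, ← hy, ← hz, ← hw]; ring)
  have k5 := key (N := p * q) (M := r * s) (δ := x + y - z - w) (pos2 p0 q0) (pos2 r0 s0) (b2 hpX hqX) (b2 hrX hsX) (by
      rw [L lp lq, L lr ls, ← hx, ← hy, ← hz, ← hw]; ring)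
  have k6 := key (N := p * r) (M := q * s) (δ := x - y + z - w) (pos2 p0 r0) (pos2 q0 s0) (b2 hpX hrX) (b2 hqX hsX) (by
      rw [L lp lr, L lq ls, ← hx, ← hy, ← hz, ← hw]; ring)
  have k7 := key (N := p * s) (M := q * r) (δ := x - y - z + w) (pos2 p0 s0) (pos2 q0 r0) (b2 hpX hsX) (b2 hqX hrX) (by
      rw [L lp ls, L lq lr, ← hx, ← hy, ← hz, ← hw]; ring)
  have k8 := key (N := p) (M := q * r * s) (δ := x - y - z - w) p0 (pos3 q0 r0 s0) (b1 hpX) (b3 hqX hrX hsX) (by
      rw [L3 lq lr ls, ← hx, ← hy, ← hz, ← hw]; ring)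
  have n1 : Mom_d (p * q * r * s) 1 = 0 := by
    unfold Mom_d
    rw [if_neg]
    have := hs.two_le
    have h1 := pos3 p0 q0 r0
    nlinarith
  have n2 : Mom_d (p * q * r) s = 0 := by unfold Mom_d; rw [if_neg (Mom_prime3 hp hq hr hs)]
  have n3 : Mom_d (p * q * s) r = 0 := by unfold Mom_d; rw [if_neg (Mom_prime3 hp hq hs hr)]
  have n4 : Mom_d (p * r * s) q = 0 := by unfold Mom_d; rw [if_neg (Mom_prime3 hp hr hs hq)]
  have n8 : Mom_d p (q * r * s) = 0 := by unfold Mom_d; rw [if_neg (Mom_prime3 hq hr hs hp).symm]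
  rw [n1, mul_zero, sub_zero] at k1
  rw [n2, mul_zero, sub_zero] at k2
  rw [n3, mul_zero, sub_zero] at k3
  rw [n4, mul_zero, sub_zero] at k4
  rw [n8, mul_zero, sub_zero] at k8
  rw [hint]
  rw [abs_le] at *
  constructor <;> linarith [k1.1, k1.2, k2.1, k2.2, k3.1, k3.2, k4.1, k4.2, k5.1, k5.2, k6.1, k6.2, k7.1, k7.2, k8.1, k8.2]

private theorem Mom_sum2 (S : Finset ℕ) (f g : ℕ → ℝ) : ∑ p ∈ S, ∑ q ∈ S, f p * g q * Mom_d p q = ∑ p ∈ S, f p * g p := by
  refine sum_congr rfl fun p hp => ?_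
  rw [sum_eq_single p]
  · unfold Mom_d; rw [if_pos rfl, mul_one]
  · intro q _ hq; unfold Mom_d; rw [if_neg hq.symm, mul_zero]
  · intro h; exact absurd hp h

/-- Mixed fourth moments: primes. -/
theorem Mom_four {S : Finset ℕ} {X : ℕ} (hS : ∀ n ∈ S, n.Prime ∧ n ≤ X) {a b : ℕ → ℝ} {H : ℝ} (ha : ∀ n ∈ S, |a n| ≤ H)
    (hb : ∀ n ∈ S, |b n| ≤ H) (T : ℝ) :
    |(∫ t in (0 : ℝ)..T, cp S a t ^ 2 * cp S b t ^ 2) -
      T * ((∑ n ∈ S, a n ^ 2) * (∑ n ∈ S, b n ^ 2) / 4 + (∑ n ∈ S, a n * b n) ^ 2 / 2 - 3 / 8 * ∑ n ∈ S, a n ^ 2 * b n ^ 2)| ≤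
      H ^ 4 * X ^ 8 := by
  classical
  have hexp : ∀ t, cp S a t ^ 2 * cp S b t ^ 2 = ∑ p ∈ S, ∑ q ∈ S, ∑ r ∈ S, ∑ s ∈ S, (a p * a q * b r * b s) *
      (Real.cos (t * Real.log p) * Real.cos (t * Real.log q) * (Real.cos (t * Real.log r) * Real.cos (t * Real.log s))) := by
    intro t
    unfold cp
    rw [sq, sq, sum_mul_sum, sum_mul_sum, sum_mul_sum]
    have h1 : ∀ p ∈ S, ∀ r ∈ S, (∑ j ∈ S, a p * Real.cos (t * Real.log p) * (a j * Real.cos (t * Real.log j))) *
        (∑ j ∈ S, b r * Real.cos (t * Real.log r) * (b j * Real.cos (t * Real.log j))) =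
        ∑ q ∈ S, ∑ s ∈ S, (a p * a q * b r * b s) *
      (Real.cos (t * Real.log p) * Real.cos (t * Real.log q) * (Real.cos (t * Real.log r) * Real.cos (t * Real.log s))) := by
      intro p _ r _
      rw [sum_mul_sum]
      exact sum_congr rfl fun q _ => sum_congr rfl fun s _ => by ring
    rw [sum_congr rfl fun p hp => sum_congr rfl fun r hr => h1 p hp r hr]
    exact sum_congr rfl fun p _ => sum_comm
  have hint : ∫ t in (0 : ℝ)..T, cp S a t ^ 2 * cp S b t ^ 2 = ∑ p ∈ S, ∑ q ∈ S, ∑ r ∈ S, ∑ s ∈ S, (a p * a q * b r * b s) *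
      ∫ t in (0 : ℝ)..T, (Real.cos (t * Real.log p) * Real.cos (t * Real.log q) * (Real.cos (t * Real.log r) * Real.cos (t * Real.log s))) := by
    simp_rw [hexp]
    rw [intervalIntegral.integral_finsetSum fun n _ => Continuous.intervalIntegrable (by fun_prop) _ _]
    refine sum_congr rfl fun p _ => ?_
    rw [intervalIntegral.integral_finsetSum fun n _ => Continuous.intervalIntegrable (by fun_prop) _ _]
    refine sum_congr rfl fun q _ => ?_
    rw [intervalIntegral.integral_finsetSum fun n _ => Continuous.intervalIntegrable (by fun_prop) _ _]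
    refine sum_congr rfl fun r _ => ?_
    rw [intervalIntegral.integral_finsetSum fun n _ => Continuous.intervalIntegrable (by fun_prop) _ _]
    refine sum_congr rfl fun s _ => ?_
    rw [intervalIntegral.integral_const_mul]
  -- the diagonal
  have hdiag : T * ((∑ n ∈ S, a n ^ 2) * (∑ n ∈ S, b n ^ 2) / 4 + (∑ n ∈ S, a n * b n) ^ 2 / 2 - 3 / 8 * ∑ n ∈ S, a n ^ 2 * b n ^ 2) =
      ∑ p ∈ S, ∑ q ∈ S, ∑ r ∈ S, ∑ s ∈ S, (a p * a q * b r * b s) *
        (T / 8 * (Mom_d (p * q) (r * s) + Mom_d (p * r) (q * s) + Mom_d (p * s) (q * r))) := by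
    have h1 : ∀ p ∈ S, ∀ q ∈ S, ∀ r ∈ S, ∀ s ∈ S, (a p * a q * b r * b s) *
        (T / 8 * (Mom_d (p * q) (r * s) + Mom_d (p * r) (q * s) + Mom_d (p * s) (q * r))) =
        T / 8 * (((a p * b r * Mom_d p r) * (a q * b s * Mom_d q s) + (a p * b s * Mom_d p s) * (a q * b r * Mom_d q r) -
          (a p * b r * Mom_d p r) * (a q * b s * Mom_d q s) * Mom_d p s) +
        ((a p * a q * Mom_d p q) * (b r * b s * Mom_d r s) + (a p * b s * Mom_d p s) * (a q * b r * Mom_d r q) -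
          (a p * a q * Mom_d p q) * (b r * b s * Mom_d r s) * Mom_d p s) +
        ((a p * a q * Mom_d p q) * (b r * b s * Mom_d s r) + (a p * b r * Mom_d p r) * (a q * b s * Mom_d s q) -
          (a p * a q * Mom_d p q) * (b r * b s * Mom_d s r) * Mom_d p r)) := by
      intro p hp q hq r hr s hs
      rw [Mom_ind (hS p hp).1 (hS q hq).1 (hS r hr).1 (hS s hs).1, Mom_ind (hS p hp).1 (hS r hr).1 (hS q hq).1 (hS s hs).1,
        Mom_ind (hS p hp).1 (hS s hs).1 (hS q hq).1 (hS r hr).1]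
      ring
    rw [sum_congr rfl fun p hp => sum_congr rfl fun q hq => sum_congr rfl fun r hr => sum_congr rfl fun s hs => h1 p hp q hq r hr s hs]
    have hsym : ∀ n m, Mom_d n m = Mom_d m n := by
      intro n m
      unfold Mom_d
      simp only [eq_comm]
    -- the nine sums
    have t1 : ∑ p ∈ S, ∑ q ∈ S, ∑ r ∈ S, ∑ s ∈ S, (a p * b r * Mom_d p r) * (a q * b s * Mom_d q s) = (∑ n ∈ S, a n * b n) ^ 2 := by
      have : ∀ p ∈ S, ∑ q ∈ S, ∑ r ∈ S, ∑ s ∈ S, (a p * b r * Mom_d p r) * (a q * b s * Mom_d q s) =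
          (∑ r ∈ S, a p * b r * Mom_d p r) * ∑ n ∈ S, a n * b n := by
        intro p _
        rw [← Mom_sum2 S a b, sum_mul_sum, sum_comm]
        refine sum_congr rfl fun r _ => sum_congr rfl fun q _ => ?_
        rw [mul_sum]
      rw [sum_congr rfl this, ← sum_mul, Mom_sum2, sq]
    have t2 : ∑ p ∈ S, ∑ q ∈ S, ∑ r ∈ S, ∑ s ∈ S, (a p * b s * Mom_d p s) * (a q * b r * Mom_d q r) = (∑ n ∈ S, a n * b n) ^ 2 := by
      rw [← t1]
      exact sum_congr rfl fun p _ => sum_congr rfl fun q _ => sum_comm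
    have t5 : ∑ p ∈ S, ∑ q ∈ S, ∑ r ∈ S, ∑ s ∈ S, (a p * b s * Mom_d p s) * (a q * b r * Mom_d r q) = (∑ n ∈ S, a n * b n) ^ 2 := by
      rw [← t2]
      exact sum_congr rfl fun p _ => sum_congr rfl fun q _ => sum_congr rfl fun r _ => sum_congr rfl fun s _ => by rw [hsym r q]
    have t8 : ∑ p ∈ S, ∑ q ∈ S, ∑ r ∈ S, ∑ s ∈ S, (a p * b r * Mom_d p r) * (a q * b s * Mom_d s q) = (∑ n ∈ S, a n * b n) ^ 2 := by
      rw [← t1]
      exact sum_congr rfl fun p _ => sum_congr rfl fun q _ => sum_congr rfl fun r _ => sum_congr rfl fun s _ => by rw [hsym s q]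
    have t4 : ∑ p ∈ S, ∑ q ∈ S, ∑ r ∈ S, ∑ s ∈ S, (a p * a q * Mom_d p q) * (b r * b s * Mom_d r s) =
        (∑ n ∈ S, a n ^ 2) * ∑ n ∈ S, b n ^ 2 := by
      have h2 : ∀ f : ℕ → ℝ, ∑ n ∈ S, f n ^ 2 = ∑ n ∈ S, f n * f n := fun f => sum_congr rfl fun n _ => sq _
      rw [h2, h2, ← Mom_sum2 S a a, ← Mom_sum2 S b b, sum_mul]
      refine sum_congr rfl fun p _ => ?_
      rw [sum_mul]
      refine sum_congr rfl fun q _ => ?_
      rw [mul_sum]
      refine sum_congr rfl fun r _ => ?_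
      rw [mul_sum]
    have t7 : ∑ p ∈ S, ∑ q ∈ S, ∑ r ∈ S, ∑ s ∈ S, (a p * a q * Mom_d p q) * (b r * b s * Mom_d s r) =
        (∑ n ∈ S, a n ^ 2) * ∑ n ∈ S, b n ^ 2 := by
      rw [← t4]
      exact sum_congr rfl fun p _ => sum_congr rfl fun q _ => sum_congr rfl fun r _ => sum_congr rfl fun s _ => by rw [hsym s r]
    have hQ : ∀ F : ℕ → ℕ → ℕ → ℕ → ℝ, (∀ p ∈ S, F p p p p = a p ^ 2 * b p ^ 2) →
        (∀ p q r s, F p q r s ≠ 0 → q = p ∧ r = p ∧ s = p) →
        ∑ p ∈ S, ∑ q ∈ S, ∑ r ∈ S, ∑ s ∈ S, F p q r s = ∑ n ∈ S, a n ^ 2 * b n ^ 2 := by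
      intro F h3 h4
      refine sum_congr rfl fun p hp => ?_
      rw [← h3 p hp]
      rw [sum_eq_single p]
      · rw [sum_eq_single p]
        · rw [sum_eq_single p]
          · intro s _ hs
            by_contra h0
            exact hs (h4 _ _ _ _ h0).2.2
          · intro h; exact absurd hp h
        · intro r _ hr
          refine sum_eq_zero fun s _ => ?_
          by_contra h0
          exact hr (h4 _ _ _ _ h0).2.1
        · intro h; exact absurd hp h
      · intro q _ hq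
        refine sum_eq_zero fun r _ => sum_eq_zero fun s _ => ?_
        by_contra h0
        exact hq (h4 _ _ _ _ h0).1
      · intro h; exact absurd hp h
    have hd : ∀ {n m : ℕ}, Mom_d n m ≠ 0 → n = m := by
      intro n m h3
      by_contra h4
      exact h3 (by unfold Mom_d; rw [if_neg h4])
    have hself : ∀ n, Mom_d n n = 1 := fun n => by unfold Mom_d; rw [if_pos rfl]
    have t3 := hQ (fun p q r s => (a p * b r * Mom_d p r) * (a q * b s * Mom_d q s) * Mom_d p s)
      (fun p _ => by simp only [hself]; ring) (by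
        intro p q r s h3
        have h4 := right_ne_zero_of_mul h3
        have h5 := left_ne_zero_of_mul h3
        have h6 := hd (right_ne_zero_of_mul (left_ne_zero_of_mul h5))
        have h7 := hd (right_ne_zero_of_mul (right_ne_zero_of_mul h5))
        have h8 := hd h4
        omega)
    have t6 := hQ (fun p q r s => (a p * a q * Mom_d p q) * (b r * b s * Mom_d r s) * Mom_d p s)
      (fun p _ => by simp only [hself]; ring) (by
        intro p q r s h3
        have h4 := right_ne_zero_of_mul h3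
        have h5 := left_ne_zero_of_mul h3
        have h6 := hd (right_ne_zero_of_mul (left_ne_zero_of_mul h5))
        have h7 := hd (right_ne_zero_of_mul (right_ne_zero_of_mul h5))
        have h8 := hd h4
        omega)
    have t9 := hQ (fun p q r s => (a p * a q * Mom_d p q) * (b r * b s * Mom_d s r) * Mom_d p r)
      (fun p _ => by simp only [hself]; ring) (by
        intro p q r s h3
        have h4 := right_ne_zero_of_mul h3
        have h5 := left_ne_zero_of_mul h3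
        have h6 := hd (right_ne_zero_of_mul (left_ne_zero_of_mul h5))
        have h7 := hd (right_ne_zero_of_mul (right_ne_zero_of_mul h5))
        have h8 := hd h4
        omega)
    simp only [← mul_sum]
    simp only [sum_add_distrib, sum_sub_distrib]
    rw [t1, t2, t3, t4, t5, t6, t7, t8, t9]
    ring
  rw [hint, hdiag, ← sum_sub_distrib]
  simp_rw [← sum_sub_distrib, ← mul_sub]
  have hX0 : (0 : ℝ) ≤ X := Nat.cast_nonneg _
  have hterm : ∀ p ∈ S, ∀ q ∈ S, ∀ r ∈ S, ∀ s ∈ S, |(a p * a q * b r * b s) *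
      ((∫ t in (0 : ℝ)..T, (Real.cos (t * Real.log p) * Real.cos (t * Real.log q) * (Real.cos (t * Real.log r) * Real.cos (t * Real.log s)))) -
        T / 8 * (Mom_d (p * q) (r * s) + Mom_d (p * r) (q * s) + Mom_d (p * s) (q * r)))| ≤ H ^ 4 * (X : ℝ) ^ 4 := by
    intro p hp q hq r hr s hs
    have hH : 0 ≤ H := (abs_nonneg _).trans (ha p hp)
    rw [abs_mul]
    have h1 : |a p * a q * b r * b s| ≤ H ^ 4 := by
      rw [abs_mul, abs_mul, abs_mul]
      calc |a p| * |a q| * |b r| * |b s| ≤ H * H * H * H :=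
            mul_le_mul (mul_le_mul (mul_le_mul (ha p hp) (ha q hq) (abs_nonneg _) hH) (hb r hr) (abs_nonneg _) (by positivity))
              (hb s hs) (abs_nonneg _) (by positivity)
        _ = H ^ 4 := by ring
    exact mul_le_mul h1 (Mom_F T (hS p hp).1 (hS q hq).1 (hS r hr).1 (hS s hs).1 (hS p hp).2 (hS q hq).2 (hS r hr).2 (hS s hs).2)
      (abs_nonneg _) (by positivity)
  have hcard : (S.card : ℝ) ≤ X := by
    have h1 : S ⊆ Finset.Icc 1 X := fun n hn => by
      rw [Finset.mem_Icc]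
      have := (hS n hn).1.pos
      have := (hS n hn).2
      omega
    have h2 := Finset.card_le_card h1
    rw [Nat.card_Icc] at h2
    exact_mod_cast (by omega : S.card ≤ X)
  calc |∑ p ∈ S, ∑ q ∈ S, ∑ r ∈ S, ∑ s ∈ S, _| ≤ ∑ p ∈ S, ∑ q ∈ S, ∑ r ∈ S, ∑ s ∈ S, H ^ 4 * (X : ℝ) ^ 4 := by
        refine (abs_sum_le_sum_abs _ _).trans (sum_le_sum fun p hp => ?_)
        refine (abs_sum_le_sum_abs _ _).trans (sum_le_sum fun q hq => ?_)
        refine (abs_sum_le_sum_abs _ _).trans (sum_le_sum fun r hr => ?_)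
        exact (abs_sum_le_sum_abs _ _).trans (sum_le_sum fun s hs => hterm p hp q hq r hr s hs)
    _ = (S.card : ℝ) ^ 4 * (H ^ 4 * (X : ℝ) ^ 4) := by
        simp only [sum_const, nsmul_eq_mul]; ring
    _ ≤ (X : ℝ) ^ 4 * (H ^ 4 * (X : ℝ) ^ 4) :=
        mul_le_mul_of_nonneg_right (pow_le_pow_left₀ (Nat.cast_nonneg _) hcard 4) (by positivity)
    _ = H ^ 4 * X ^ 8 := by ring

end Pool.Agent.Lib.MP_00e05b_nt.Gap2
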