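import Mathlib

/-!
# Abstract part of the theorem below the density barrier

Real functions `Y_0, …, Y_(J-1)` on `[0,T]` with bounded Gram row sums for `Y_j` and for `Y_j² - 1`, bounded fourth moments, and a set `G` on which all the
negative parts are small in mean: then `G` is small.
-/

open Set MeasureTheory Finset

namespace Pool.Agent.Lib.MP_00e05b_nt.Gap2

/-- Cauchy-Schwarz, real functions, squared form. -/
theorem Abs_cs {α : Type*} [MeasurableSpace α] {μ : Measure α} {f g : α → ℝ} (hf : Integrable (fun x => f x ^ 2) μ)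
    (hg : Integrable (fun x => g x ^ 2) μ) (hfg : Integrable (fun x => f x * g x) μ) :
    (∫ x, f x * g x ∂μ) ^ 2 ≤ (∫ x, f x ^ 2 ∂μ) * ∫ x, g x ^ 2 ∂μ := by
  obtain ⟨a, ha⟩ : ∃ a, a = ∫ x, f x ^ 2 ∂μ := ⟨_, rfl⟩
  obtain ⟨b, hb⟩ : ∃ b, b = ∫ x, f x * g x ∂μ := ⟨_, rfl⟩
  obtain ⟨c, hc⟩ : ∃ c, c = ∫ x, g x ^ 2 ∂μ := ⟨_, rfl⟩
  have h : ∀ y : ℝ, 0 ≤ c * (y * y) + (2 * b) * y + a := by
    intro y
    have h1 : 0 ≤ ∫ x, (f x + y * g x) ^ 2 ∂μ := integral_nonneg fun x => sq_nonneg _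
    have h2 : ∫ x, (f x + y * g x) ^ 2 ∂μ = a + (2 * y) * b + y ^ 2 * c := by
      have h3 : (fun x => (f x + y * g x) ^ 2) = fun x => (f x ^ 2 + (2 * y) * (f x * g x)) + y ^ 2 * g x ^ 2 := by
        funext x; ring
      have hi1 : Integrable (fun x => (2 * y) * (f x * g x)) μ := hfg.const_mul _
      have hi2 : Integrable (fun x => y ^ 2 * g x ^ 2) μ := hg.const_mul _
      have hi3 : Integrable (fun x => f x ^ 2 + (2 * y) * (f x * g x)) μ := hf.add hi1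
      rw [h3, integral_add hi3 hi2, integral_add hf hi1, integral_const_mul, integral_const_mul, ha, hb, hc]
    rw [h2] at h1
    nlinarith
  have h4 := discrim_le_zero h
  unfold discrim at h4
  rw [← ha, ← hb, ← hc]
  nlinarith

/-- Bessel inequality with Gram row sums (Schur). -/
theorem Abs_bessel {α : Type*} [MeasurableSpace α] {μ : Measure α} {J : ℕ} {f : ℕ → α → ℝ} {g : α → ℝ} {A : ℝ} (hA : 0 ≤ A)
    (hff : ∀ i < J, ∀ j < J, Integrable (fun x => f i x * f j x) μ) (hg : Integrable (fun x => g x ^ 2) μ)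
    (hfg : ∀ j < J, Integrable (fun x => f j x * g x) μ)
    (hrow : ∀ j < J, ∑ i ∈ range J, |∫ x, f i x * f j x ∂μ| ≤ A) :
    ∑ j ∈ range J, (∫ x, f j x * g x ∂μ) ^ 2 ≤ A * ∫ x, g x ^ 2 ∂μ := by
  obtain ⟨a, ha⟩ : ∃ a : ℕ → ℝ, ∀ j, a j = ∫ x, f j x * g x ∂μ := ⟨_, fun _ => rfl⟩
  obtain ⟨F, hF⟩ : ∃ F : α → ℝ, F = fun x => ∑ j ∈ range J, a j * f j x := ⟨_, rfl⟩
  have hFg : (fun x => F x * g x) = fun x => ∑ j ∈ range J, a j * (f j x * g x) := by
    funext x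
    rw [hF, sum_mul]
    exact sum_congr rfl fun j _ => by ring
  have hFF : (fun x => F x ^ 2) = fun x => ∑ i ∈ range J, ∑ j ∈ range J, (a i * a j) * (f i x * f j x) := by
    funext x
    rw [hF, sq, sum_mul_sum]
    exact sum_congr rfl fun i _ => sum_congr rfl fun j _ => by ring
  have hiFg : Integrable (fun x => F x * g x) μ := by
    rw [hFg]
    exact integrable_finsetSum _ fun j hj => (hfg j (mem_range.1 hj)).const_mul _
  have hiFF : Integrable (fun x => F x ^ 2) μ := by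
    rw [hFF]
    exact integrable_finsetSum _ fun i hi => integrable_finsetSum _ fun j hj =>
      (hff i (mem_range.1 hi) j (mem_range.1 hj)).const_mul _
  have h1 : ∫ x, F x * g x ∂μ = ∑ j ∈ range J, a j ^ 2 := by
    rw [hFg, integral_finsetSum _ fun j hj => (hfg j (mem_range.1 hj)).const_mul _]
    refine sum_congr rfl fun j _ => ?_
    rw [integral_const_mul, ← ha j, sq]
  have h2 : ∫ x, F x ^ 2 ∂μ ≤ A * ∑ j ∈ range J, a j ^ 2 := by
    rw [hFF, integral_finsetSum _ fun i hi => integrable_finsetSum _ fun j hj =>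
      (hff i (mem_range.1 hi) j (mem_range.1 hj)).const_mul _]
    have h3 : ∀ i ∈ range J, ∫ x, ∑ j ∈ range J, (a i * a j) * (f i x * f j x) ∂μ =
        ∑ j ∈ range J, (a i * a j) * ∫ x, f i x * f j x ∂μ := by
      intro i hi
      rw [integral_finsetSum _ fun j hj => (hff i (mem_range.1 hi) j (mem_range.1 hj)).const_mul _]
      exact sum_congr rfl fun j _ => integral_const_mul _ _
    rw [sum_congr rfl h3]
    obtain ⟨c, hc⟩ : ∃ c : ℕ → ℕ → ℝ, ∀ i j, c i j = ∫ x, f i x * f j x ∂μ := ⟨_, fun _ _ => rfl⟩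
    have hsym : ∀ i j, c i j = c j i := by
      intro i j
      rw [hc, hc]
      congr 1
      funext x
      ring
    simp_rw [← hc] at hrow ⊢
    have h4 : ∑ i ∈ range J, ∑ j ∈ range J, a i * a j * c i j ≤
        ∑ i ∈ range J, ∑ j ∈ range J, (|c i j| * a i ^ 2 / 2 + |c i j| * a j ^ 2 / 2) := by
      refine sum_le_sum fun i _ => sum_le_sum fun j _ => ?_
      have h5 : a i * a j * c i j ≤ |a i * a j| * |c i j| := by
        rw [← abs_mul]; exact le_abs_self _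
      have h6 : |a i * a j| ≤ a i ^ 2 / 2 + a j ^ 2 / 2 := by
        rw [abs_mul]
        nlinarith [sq_nonneg (|a i| - |a j|), sq_abs (a i), sq_abs (a j)]
      have h7 := mul_le_mul_of_nonneg_right h6 (abs_nonneg (c i j))
      linarith
    refine h4.trans ?_
    have h8 : ∑ i ∈ range J, ∑ j ∈ range J, (|c i j| * a i ^ 2 / 2 + |c i j| * a j ^ 2 / 2) =
        (∑ i ∈ range J, (∑ j ∈ range J, |c j i|) * (a i ^ 2 / 2)) + ∑ j ∈ range J, (∑ i ∈ range J, |c i j|) * (a j ^ 2 / 2) := by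
      rw [sum_congr rfl fun i _ => sum_add_distrib, sum_add_distrib]
      congr 1
      · refine sum_congr rfl fun i _ => ?_
        rw [sum_mul]
        refine sum_congr rfl fun j _ => ?_
        rw [hsym i j]; ring
      · rw [sum_comm]
        refine sum_congr rfl fun j _ => ?_
        rw [sum_mul]
        exact sum_congr rfl fun i _ => by ring
    rw [h8]
    have h9 : ∑ i ∈ range J, (∑ j ∈ range J, |c j i|) * (a i ^ 2 / 2) ≤ ∑ i ∈ range J, A * (a i ^ 2 / 2) :=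
      sum_le_sum fun i hi => mul_le_mul_of_nonneg_right (hrow i (mem_range.1 hi)) (by positivity)
    have h10 : ∑ i ∈ range J, A * (a i ^ 2 / 2) = A * (∑ j ∈ range J, a j ^ 2) / 2 := by
      rw [mul_sum, sum_div]
      exact sum_congr rfl fun i _ => by ring
    linarith
  have h3 := Abs_cs hiFF hg hiFg
  rw [h1] at h3
  obtain ⟨S, hS⟩ : ∃ S : ℝ, S = ∑ j ∈ range J, a j ^ 2 := ⟨_, rfl⟩
  obtain ⟨g2, hg2⟩ : ∃ g2 : ℝ, g2 = ∫ x, g x ^ 2 ∂μ := ⟨_, rfl⟩
  have hS0 : 0 ≤ S := by rw [hS]; positivity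
  have hg0 : 0 ≤ g2 := by rw [hg2]; exact integral_nonneg fun x => sq_nonneg _
  have hgoal : ∑ j ∈ range J, (∫ x, f j x * g x ∂μ) ^ 2 = S := by
    rw [hS]; exact sum_congr rfl fun j _ => by rw [ha j]
  rw [hgoal, ← hg2]
  rw [← hS] at h3 h2
  rw [← hg2] at h3
  have h4 : S ^ 2 ≤ A * S * g2 := h3.trans (mul_le_mul_of_nonneg_right h2 hg0)
  rcases hS0.lt_or_eq with h | h
  · have h5 : S * S ≤ S * (A * g2) := by nlinarith
    exact le_of_mul_le_mul_left h5 h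
  · rw [← h]; positivity

/-- Hölder, cubic form: `(∫ Y²)³ ≤ (∫ |Y|)² ∫ Y⁴`. -/
theorem Abs_holder {α : Type*} [MeasurableSpace α] {μ : Measure α} {Y : α → ℝ} (h1 : Integrable (fun x => |Y x|) μ)
    (h2 : Integrable (fun x => Y x ^ 2) μ) (h3 : Integrable (fun x => |Y x| ^ 3) μ) (h4 : Integrable (fun x => Y x ^ 4) μ) :
    (∫ x, Y x ^ 2 ∂μ) ^ 3 ≤ (∫ x, |Y x| ∂μ) ^ 2 * ∫ x, Y x ^ 4 ∂μ := by
  obtain ⟨m1, hm1⟩ : ∃ a, a = ∫ x, |Y x| ∂μ := ⟨_, rfl⟩
  obtain ⟨m2, hm2⟩ : ∃ a, a = ∫ x, Y x ^ 2 ∂μ := ⟨_, rfl⟩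
  obtain ⟨m3, hm3⟩ : ∃ a, a = ∫ x, |Y x| ^ 3 ∂μ := ⟨_, rfl⟩
  obtain ⟨m4, hm4⟩ : ∃ a, a = ∫ x, Y x ^ 4 ∂μ := ⟨_, rfl⟩
  have p1 : 0 ≤ m1 := by rw [hm1]; exact integral_nonneg fun x => abs_nonneg _
  have p2 : 0 ≤ m2 := by rw [hm2]; exact integral_nonneg fun x => sq_nonneg _
  have p3 : 0 ≤ m3 := by rw [hm3]; exact integral_nonneg fun x => by positivity
  have p4 : 0 ≤ m4 := by rw [hm4]; exact integral_nonneg fun x => by positivity
  have e1 : ∀ x, Real.sqrt |Y x| ^ 2 = |Y x| := fun x => Real.sq_sqrt (abs_nonneg _)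
  have e2 : ∀ x, (Real.sqrt |Y x| * |Y x|) ^ 2 = |Y x| ^ 3 := by
    intro x; rw [mul_pow, e1]; ring
  have e3 : ∀ x, Real.sqrt |Y x| * (Real.sqrt |Y x| * |Y x|) = Y x ^ 2 := by
    intro x
    have : Real.sqrt |Y x| * (Real.sqrt |Y x| * |Y x|) = Real.sqrt |Y x| ^ 2 * |Y x| := by ring
    rw [this, e1, ← sq, sq_abs]
  have c1 := Abs_cs (μ := μ) (f := fun x => Real.sqrt |Y x|) (g := fun x => Real.sqrt |Y x| * |Y x|)
    (by simp_rw [e1]; exact h1) (by simp_rw [e2]; exact h3) (by simp_rw [e3]; exact h2)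
  simp_rw [e1, e2, e3] at c1
  have e4 : ∀ x, |Y x| * Y x ^ 2 = |Y x| ^ 3 := by
    intro x; rw [← sq_abs (Y x)]; ring
  have e5 : ∀ x, |Y x| ^ 2 = Y x ^ 2 := fun x => sq_abs _
  have e6 : ∀ x, (Y x ^ 2) ^ 2 = Y x ^ 4 := fun x => by ring
  have c2 := Abs_cs (μ := μ) (f := fun x => |Y x|) (g := fun x => Y x ^ 2)
    (by simp_rw [e5]; exact h2) (by simp_rw [e6]; exact h4) (by simp_rw [e4]; exact h3)
  simp_rw [e5, e6, e4] at c2
  rw [← hm1, ← hm2, ← hm3] at c1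
  rw [← hm2, ← hm3, ← hm4] at c2
  rw [← hm1, ← hm2, ← hm4]
  rcases p2.lt_or_eq with h | h
  · have h5 : m2 ^ 2 * m2 ^ 2 ≤ m1 ^ 2 * (m2 * m4) := by
      calc m2 ^ 2 * m2 ^ 2 ≤ (m1 * m3) * (m1 * m3) := mul_le_mul c1 c1 (by positivity) (by positivity)
        _ = m1 ^ 2 * m3 ^ 2 := by ring
        _ ≤ m1 ^ 2 * (m2 * m4) := mul_le_mul_of_nonneg_left c2 (by positivity)
    have h6 : m2 * m2 ^ 3 ≤ m2 * (m1 ^ 2 * m4) := by nlinarith
    exact le_of_mul_le_mul_left h6 h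
  · rw [← h]; have h7 : 0 ≤ m1 ^ 2 * m4 := mul_nonneg (sq_nonneg m1) p4
    simpa using h7

/-- Bounded measurable functions on a finite measure space are integrable. -/
theorem Abs_int {α : Type*} [MeasurableSpace α] {μ : Measure α} [IsFiniteMeasure μ] {f : α → ℝ} (hf : Measurable f) {B : ℝ}
    (hB : ∀ x, |f x| ≤ B) : Integrable f μ :=
  Integrable.of_bound hf.aestronglyMeasurable B (Filter.Eventually.of_forall fun x => by simpa using hB x)

/-- The abstract theorem: `(p - κ)³ ≤ A (κ + 2 η)²`, `κ² = 2 A / J`, `p` = relative mass of `G`. -/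
theorem Abs_main {α : Type*} [MeasurableSpace α] {μ : Measure α} [IsFiniteMeasure μ] {J : ℕ} (hJ : 1 ≤ J) {Y : ℕ → α → ℝ}
    {M A η : ℝ} (hA : 0 ≤ A) (hM : 0 < M) (hμ : μ.real univ ≤ M)
    (hY : ∀ j < J, Measurable (Y j)) (hB : ∀ j < J, ∃ B : ℝ, ∀ x, |Y j x| ≤ B)
    (h1 : ∀ j < J, ∑ i ∈ range J, |∫ x, Y i x * Y j x ∂μ| ≤ A * M)
    (h2 : ∀ j < J, ∑ i ∈ range J, |∫ x, (Y i x ^ 2 - 1) * (Y j x ^ 2 - 1) ∂μ| ≤ A * M)
    (h4 : ∀ j < J, ∫ x, Y j x ^ 4 ∂μ ≤ A * M)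
    {G : Set α} (hG : MeasurableSet G) (hneg : ∀ j < J, ∫ x in G, max (-(Y j x)) 0 ∂μ ≤ η * M) :
    (μ.real G / M - Real.sqrt (2 * A / J)) ^ 3 ≤ A * (Real.sqrt (2 * A / J) + 2 * η) ^ 2 := by
  obtain ⟨g, hg⟩ : ∃ g : α → ℝ, g = G.indicator fun _ => (1 : ℝ) := ⟨_, rfl⟩
  have hgm : Measurable g := by rw [hg]; exact measurable_const.indicator hG
  have hg01 : ∀ x, |g x| ≤ 1 := by
    intro x
    rw [hg]
    by_cases hx : x ∈ G
    · simp [hx]
    · simp [hx]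
  have hg2 : ∀ x, g x ^ 2 = g x := by
    intro x
    rw [hg]
    by_cases hx : x ∈ G
    · simp [hx]
    · simp [hx]
  have hgint : ∫ x, g x ∂μ = μ.real G := by
    rw [hg, integral_indicator hG]
    simp
  have hgmul : ∀ f : α → ℝ, ∫ x, f x * g x ∂μ = ∫ x in G, f x ∂μ := by
    intro f
    rw [← integral_indicator hG]
    congr 1
    funext x
    rw [hg]
    by_cases hx : x ∈ G
    · simp [hx]
    · simp [hx]
  have hpM : μ.real G ≤ M := (measureReal_mono (subset_univ G)).trans hμ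
  have hp0 : 0 ≤ μ.real G := measureReal_nonneg
  choose! B hB using hB
  have hBB : ∀ j < J, ∀ x, |Y j x| ≤ |B j| := fun j hj x => (hB j hj x).trans (le_abs_self _)
  have bI : ∀ {i j : ℕ}, i < J → j < J → Integrable (fun x => Y i x * Y j x) μ := by
    intro i j hi hj
    refine Abs_int ((hY i hi).mul (hY j hj)) (B := |B i| * |B j|) fun x => ?_
    rw [abs_mul]
    exact mul_le_mul (hBB i hi x) (hBB j hj x) (abs_nonneg _) (abs_nonneg _)
  have bS : ∀ j < J, ∀ x, |Y j x ^ 2 - 1| ≤ |B j| ^ 2 + 1 := by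
    intro j hj x
    have : Y j x ^ 2 ≤ |B j| ^ 2 := by
      rw [← sq_abs (Y j x)]
      exact pow_le_pow_left₀ (abs_nonneg _) (hBB j hj x) 2
    rw [abs_le]
    constructor <;> nlinarith [sq_nonneg (Y j x), sq_nonneg (|B j|)]
  have mS : ∀ j < J, Measurable fun x => Y j x ^ 2 - 1 := fun j hj => ((hY j hj).pow_const 2).sub_const 1
  have bI2 : ∀ {i j : ℕ}, i < J → j < J → Integrable (fun x => (Y i x ^ 2 - 1) * (Y j x ^ 2 - 1)) μ := by
    intro i j hi hj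
    refine Abs_int ((mS i hi).mul (mS j hj)) (B := (|B i| ^ 2 + 1) * (|B j| ^ 2 + 1)) fun x => ?_
    rw [abs_mul]
    exact mul_le_mul (bS i hi x) (bS j hj x) (abs_nonneg _) (by positivity)
  have gI : Integrable (fun x => g x ^ 2) μ := by
    simp_rw [hg2]
    exact Abs_int hgm hg01
  have gsq : ∫ x, g x ^ 2 ∂μ = μ.real G := by
    simp_rw [hg2]
    exact hgint
  have i1 : ∀ j < J, Integrable (fun x => Y j x * g x) μ := by
    intro j hj
    refine Abs_int ((hY j hj).mul hgm) (B := |B j| * 1) fun x => ?_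
    rw [abs_mul]
    exact mul_le_mul (hBB j hj x) (hg01 x) (abs_nonneg _) (abs_nonneg _)
  have i2 : ∀ j < J, Integrable (fun x => (Y j x ^ 2 - 1) * g x) μ := by
    intro j hj
    refine Abs_int ((mS j hj).mul hgm) (B := (|B j| ^ 2 + 1) * 1) fun x => ?_
    rw [abs_mul]
    exact mul_le_mul (bS j hj x) (hg01 x) (abs_nonneg _) (by positivity)
  have hAM : 0 ≤ A * M := mul_nonneg hA hM.le
  have b1 := Abs_bessel (μ := μ) (J := J) (f := Y) (g := g) hAM (fun i hi j hj => bI hi hj) gI i1 h1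
  have b2 := Abs_bessel (μ := μ) (J := J) (f := fun j x => Y j x ^ 2 - 1) (g := g) hAM (fun i hi j hj => bI2 hi hj) gI i2 h2
  rw [gsq] at b1 b2
  have hJ0 : (0 : ℝ) < J := by exact_mod_cast hJ
  obtain ⟨κ, hκ⟩ : ∃ κ : ℝ, κ = Real.sqrt (2 * A / J) := ⟨_, rfl⟩
  have hκ0 : 0 ≤ κ := by rw [hκ]; exact Real.sqrt_nonneg _
  have hκ2 : κ ^ 2 = 2 * A / J := by rw [hκ]; exact Real.sq_sqrt (by positivity)
  -- a good index
  obtain ⟨j, hj, hjj⟩ : ∃ j, j < J ∧ (∫ x, Y j x * g x ∂μ) ^ 2 + (∫ x, (Y j x ^ 2 - 1) * g x ∂μ) ^ 2 ≤ κ ^ 2 * M ^ 2 := by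
    by_contra hcon
    push Not at hcon
    have h5 : ∑ j ∈ range J, κ ^ 2 * M ^ 2 < ∑ j ∈ range J, ((∫ x, Y j x * g x ∂μ) ^ 2 + (∫ x, (Y j x ^ 2 - 1) * g x ∂μ) ^ 2) :=
      sum_lt_sum_of_nonempty ⟨0, mem_range.2 hJ⟩ fun j hj => hcon j (mem_range.1 hj)
    rw [sum_add_distrib, sum_const, card_range, nsmul_eq_mul, hκ2] at h5
    have h6 : (J : ℝ) * (2 * A / J * M ^ 2) = 2 * A * M ^ 2 := by field_simp
    rw [h6] at h5
    have h7 : A * M * μ.real G ≤ A * M * M := mul_le_mul_of_nonneg_left hpM hAM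
    nlinarith
  have hE : |∫ x, Y j x * g x ∂μ| ≤ κ * M := by
    refine abs_le_of_sq_le_sq ?_ (by positivity)
    rw [mul_pow]
    nlinarith [sq_nonneg (∫ x, (Y j x ^ 2 - 1) * g x ∂μ)]
  have hF : |∫ x, (Y j x ^ 2 - 1) * g x ∂μ| ≤ κ * M := by
    refine abs_le_of_sq_le_sq ?_ (by positivity)
    rw [mul_pow]
    nlinarith [sq_nonneg (∫ x, Y j x * g x ∂μ)]
  rw [hgmul] at hE hF
  -- restricted measure
  have j1 : Integrable (fun x => Y j x) (μ.restrict G) := Abs_int (hY j hj) (hBB j hj)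
  have j1' : Integrable (fun x => |Y j x|) (μ.restrict G) := j1.abs
  have j2 : Integrable (fun x => Y j x ^ 2) (μ.restrict G) := by
    refine Abs_int ((hY j hj).pow_const 2) (B := |B j| ^ 2) fun x => ?_
    rw [abs_pow]
    exact pow_le_pow_left₀ (abs_nonneg _) (hBB j hj x) 2
  have j3 : Integrable (fun x => |Y j x| ^ 3) (μ.restrict G) := by
    refine Abs_int ((hY j hj).abs.pow_const 3) (B := |B j| ^ 3) fun x => ?_
    rw [abs_pow, abs_abs]
    exact pow_le_pow_left₀ (abs_nonneg _) (hBB j hj x) 3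
  have j4' : Integrable (fun x => Y j x ^ 4) μ := by
    refine Abs_int ((hY j hj).pow_const 4) (B := |B j| ^ 4) fun x => ?_
    rw [abs_pow]
    exact pow_le_pow_left₀ (abs_nonneg _) (hBB j hj x) 4
  have j4 : Integrable (fun x => Y j x ^ 4) (μ.restrict G) := j4'.restrict
  have jn : Integrable (fun x => max (-(Y j x)) 0) (μ.restrict G) := by
    refine Abs_int ((hY j hj).neg.max measurable_const) (B := |B j|) fun x => ?_
    have h8 := hBB j hj x
    rw [abs_of_nonneg (le_max_right _ _)]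
    exact max_le ((neg_le_abs _).trans h8) (abs_nonneg _)
  have hh := Abs_holder j1' j2 j3 j4
  have k1 : ∫ x in G, |Y j x| ∂μ ≤ (κ + 2 * η) * M := by
    have h9 : (fun x => |Y j x|) = fun x => Y j x + 2 * max (-(Y j x)) 0 := by
      funext x
      rcases le_total 0 (Y j x) with h | h
      · rw [abs_of_nonneg h, max_eq_right (by linarith)]; ring
      · rw [abs_of_nonpos h, max_eq_left (by linarith)]; ring
    rw [h9, integral_add j1 (jn.const_mul 2), integral_const_mul]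
    have h10 := hneg j hj
    have h11 := (abs_le.1 hE).2
    linarith
  have k1' : 0 ≤ ∫ x in G, |Y j x| ∂μ := integral_nonneg fun x => abs_nonneg _
  have k2 : μ.real G - κ * M ≤ ∫ x in G, Y j x ^ 2 ∂μ := by
    have h12 : ∫ x in G, (Y j x ^ 2 - 1) ∂μ = (∫ x in G, Y j x ^ 2 ∂μ) - μ.real G := by
      rw [integral_sub j2 (integrable_const _)]
      simp
    rw [h12] at hF
    have := (abs_le.1 hF).1
    linarith
  have k4 : ∫ x in G, Y j x ^ 4 ∂μ ≤ A * M :=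
    (setIntegral_le_integral j4' (Filter.Eventually.of_forall fun x => by positivity)).trans (h4 j hj)
  have k4' : 0 ≤ ∫ x in G, Y j x ^ 4 ∂μ := integral_nonneg fun x => by positivity
  have hfin : (μ.real G - κ * M) ^ 3 ≤ ((κ + 2 * η) * M) ^ 2 * (A * M) := by
    rcases le_total 0 (μ.real G - κ * M) with h | h
    · calc (μ.real G - κ * M) ^ 3 ≤ (∫ x in G, Y j x ^ 2 ∂μ) ^ 3 := pow_le_pow_left₀ h k2 3
        _ ≤ (∫ x in G, |Y j x| ∂μ) ^ 2 * ∫ x in G, Y j x ^ 4 ∂μ := hh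
        _ ≤ ((κ + 2 * η) * M) ^ 2 * (A * M) := by
            apply mul_le_mul (pow_le_pow_left₀ k1' k1 2) k4 k4' (by positivity)
    · have h13 : (μ.real G - κ * M) ^ 3 ≤ 0 := by
        have := sq_nonneg (μ.real G - κ * M)
        nlinarith
      exact h13.trans (by positivity)
  rw [← hκ]
  have h14 : (μ.real G / M - κ) ^ 3 = (μ.real G - κ * M) ^ 3 / M ^ 3 := by
    rw [← div_pow]
    congr 1
    field_simp
  rw [h14, div_le_iff₀ (by positivity)]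
  calc (μ.real G - κ * M) ^ 3 ≤ ((κ + 2 * η) * M) ^ 2 * (A * M) := hfin
    _ = A * (κ + 2 * η) ^ 2 * M ^ 3 := by ring

/-- The usable form: for given `A` and `p₀ > 0` there are `J` and `η > 0` such that `G` has relative mass less than `p₀`. -/
theorem Abs_small {A p₀ : ℝ} (hA : 0 ≤ A) (hp : 0 < p₀) : ∃ (J : ℕ) (η : ℝ), 1 ≤ J ∧ 0 < η ∧
    ∀ (α : Type) [MeasurableSpace α] (μ : Measure α) [IsFiniteMeasure μ] (Y : ℕ → α → ℝ) (M : ℝ), 0 < M → μ.real univ ≤ M →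
    (∀ j < J, Measurable (Y j)) → (∀ j < J, ∃ B : ℝ, ∀ x, |Y j x| ≤ B) →
    (∀ j < J, ∑ i ∈ range J, |∫ x, Y i x * Y j x ∂μ| ≤ A * M) →
    (∀ j < J, ∑ i ∈ range J, |∫ x, (Y i x ^ 2 - 1) * (Y j x ^ 2 - 1) ∂μ| ≤ A * M) →
    (∀ j < J, ∫ x, Y j x ^ 4 ∂μ ≤ A * M) →
    ∀ G : Set α, MeasurableSet G → (∀ j < J, ∫ x in G, max (-(Y j x)) 0 ∂μ ≤ η * M) → μ.real G < p₀ * M := by
  obtain ⟨k, hk⟩ : ∃ k : ℝ, k = min (p₀ / 2) ((p₀ / 2) ^ 3 / (4 * (A + 1) * (p₀ + 1))) := ⟨_, rfl⟩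
  have hk0 : 0 < k := by rw [hk]; positivity
  have hk1 : k ≤ p₀ / 2 := by rw [hk]; exact min_le_left _ _
  have hk2 : k * (4 * (A + 1) * (p₀ + 1)) ≤ (p₀ / 2) ^ 3 := by
    have h : k ≤ (p₀ / 2) ^ 3 / (4 * (A + 1) * (p₀ + 1)) := by rw [hk]; exact min_le_right _ _
    rwa [le_div_iff₀ (by positivity)] at h
  obtain ⟨J, hJ⟩ : ∃ J : ℕ, J = ⌈2 * A / k ^ 2⌉₊ + 1 := ⟨_, rfl⟩
  have hJ1 : 1 ≤ J := by rw [hJ]; omega
  have hJ0 : (0 : ℝ) < J := by exact_mod_cast hJ1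
  have hJk : 2 * A / J ≤ k ^ 2 := by
    have h1 : 2 * A / k ^ 2 ≤ J := by
      rw [hJ]
      push_cast
      exact (Nat.le_ceil _).trans (by linarith)
    rw [div_le_iff₀ (by positivity)] at h1
    rw [div_le_iff₀ hJ0]
    linarith
  have hsq : Real.sqrt (2 * A / J) ≤ k := by
    rw [← Real.sqrt_sq hk0.le]
    exact Real.sqrt_le_sqrt hJk
  refine ⟨J, k / 2, hJ1, by positivity, ?_⟩
  intro α _ μ _ Y M hM hμ hY hB h1 h2 h4 G hG hneg
  by_contra hcon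
  push Not at hcon
  have hmain := Abs_main hJ1 hA hM hμ hY hB h1 h2 h4 hG hneg
  obtain ⟨κ, hκ⟩ : ∃ κ : ℝ, κ = Real.sqrt (2 * A / J) := ⟨_, rfl⟩
  have hκ0 : 0 ≤ κ := by rw [hκ]; exact Real.sqrt_nonneg _
  rw [← hκ] at hmain hsq
  have hpp : p₀ ≤ μ.real G / M := by rwa [le_div_iff₀ hM]
  have l1 : (p₀ / 2) ^ 3 ≤ (μ.real G / M - κ) ^ 3 := pow_le_pow_left₀ (by positivity) (by linarith) 3
  have l2 : A * (κ + 2 * (k / 2)) ^ 2 ≤ A * (2 * k) ^ 2 :=
    mul_le_mul_of_nonneg_left (pow_le_pow_left₀ (by positivity) (by linarith) 2) hA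
  have l3 : A * (2 * k) ^ 2 < k * (4 * (A + 1) * (p₀ + 1)) := by
    have : A * (2 * k) ^ 2 = k * (4 * A * k) := by ring
    rw [this]
    refine mul_lt_mul_of_pos_left ?_ hk0
    nlinarith
  linarith

end Pool.Agent.Lib.MP_00e05b_nt.Gap2
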